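import Pool.Agent.Helper58.IQ.Char

/-! # The twist by the mod 3 cyclotomic character is unramified outside 3 -/

set_option autoImplicit false

open scoped NumberField
open Pool.Agent.Helper58.IQ

namespace Pool.Agent.Helper98.IQ

variable {K : Type*} [Field K] [CharZero K]

/-- a square root of `-3` of the form `2 ζ + 1` with `ζ` an algebraic integer -/
theorem exists_zeta : ∃ z : 𝓞 (Kb K), z ^ 2 + z + 1 = 0 := by
  obtain ⟨s, hs⟩ := IsAlgClosed.exists_pow_nat_eq (-3 : Kb K) two_pos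
  have h2 : (2 : Kb K) ≠ 0 := two_ne_zero
  have hz : ((s - 1) / 2) ^ 2 + (s - 1) / 2 + 1 = 0 := by
    field_simp
    linear_combination hs
  have hi : IsIntegral ℤ ((s - 1) / 2) := by
    refine ⟨Polynomial.X ^ 2 + Polynomial.X + 1, by monicity!, ?_⟩
    simpa using hz
  obtain ⟨z, hzs⟩ : ∃ z : 𝓞 (Kb K), (z : Kb K) = (s - 1) / 2 := ⟨⟨(s - 1) / 2, hi⟩, rfl⟩
  refine ⟨z, ?_⟩
  apply NumberField.RingOfIntegers.ext
  have h : (z : Kb K) ^ 2 + z + 1 = 0 := by rw [hzs]; exact hz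
  simpa using h

theorem fix_zeta {P : Ideal (𝓞 (Kb K))} (hP : P.IsPrime) (h3 : ((3 : ℕ) : 𝓞 (Kb K)) ∉ P)
    {g : GK K} (hg : g ∈ inert P) {z : 𝓞 (Kb K)} (hz : z ^ 2 + z + 1 = 0) :
    g (z : Kb K) = z := by
  have h1 : (g • z) - z ∈ P := hg z
  have hzz : (z : Kb K) ^ 2 + z + 1 = 0 := by
    have := congrArg (fun x : 𝓞 (Kb K) => (x : Kb K)) hz
    simpa using this
  have h2 : (g (z : Kb K)) ^ 2 + g z + 1 = 0 := by
    have := congrArg g hzz
    simpa using this
  have h4 : (g (z : Kb K) - z) * (g z - (-1 - z)) = 0 := by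
    linear_combination h2 - hzz
  rcases mul_eq_zero.1 h4 with h5 | h5
  · exact sub_eq_zero.1 h5
  · exfalso
    have h6 : (g • z) = -1 - z := by
      apply NumberField.RingOfIntegers.ext
      have h7 : ((g • z : 𝓞 (Kb K)) : Kb K) = g z := rfl
      rw [h7, sub_eq_zero.1 h5]
      simp
    rw [h6] at h1
    have h8 : (-1 - z - z) * (-1 - z - z) ∈ P := P.mul_mem_left _ h1
    have h9 : (-1 - z - z) * (-1 - z - z) = -((3 : ℕ) : 𝓞 (Kb K)) := by
      push_cast
      linear_combination 4 * hz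
    rw [h9] at h8
    exact h3 ((Ideal.neg_mem_iff _).1 h8)

theorem qch_twist (d : K) {P : Ideal (𝓞 (Kb K))} (hP : P.IsPrime)
    (h3 : ((3 : ℕ) : 𝓞 (Kb K)) ∉ P) {g : GK K} (hg : g ∈ inert P) :
    qch (-3 * d) g = qch d g := by
  obtain ⟨z, hz⟩ := exists_zeta (K := K)
  have hzz : (z : Kb K) ^ 2 + z + 1 = 0 := by
    have := congrArg (fun x : 𝓞 (Kb K) => (x : Kb K)) hz
    simpa using this
  have hf := fix_zeta hP h3 hg hz
  by_cases hd : d = 0
  · subst hd
    rw [mul_zero]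
  · have hs : (2 * (z : Kb K) + 1) ^ 2 = -3 := by linear_combination 4 * hzz
    have hr : (sqr d * (2 * (z : Kb K) + 1)) ^ 2 = algebraMap K (Kb K) (-3 * d) := by
      rw [mul_pow, sqr_sq, hs, map_mul, map_neg]
      simp only [map_ofNat]
      ring
    have h1 := qch_spec (-3 * d) g hr
    have h2 := qch_sqr d g
    have h4 : g (2 * (z : Kb K) + 1) = 2 * (z : Kb K) + 1 := by
      rw [map_add, map_mul, hf, map_ofNat, map_one]
    rw [map_mul, h2, h4] at h1
    have hne : sqr d * (2 * (z : Kb K) + 1) ≠ 0 := by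
      intro h0
      rw [h0] at hr
      have h5 : algebraMap K (Kb K) (-3 * d) = 0 := by rw [← hr]; simp
      have h6 : (-3 * d : K) = 0 := (map_eq_zero _).1 h5
      have h7 : (-3 : K) ≠ 0 := by
        rw [neg_ne_zero]
        exact three_ne_zero
      exact hd ((mul_eq_zero.1 h6).resolve_left h7)
    rw [smul_mul_assoc, ← sub_eq_zero, ← sub_smul] at h1
    have h8 := (smul_eq_zero.1 h1).resolve_right hne
    have h9 : ((qch d g : ℤˣ) : ℤ) = ((qch (-3 * d) g : ℤˣ) : ℤ) := sub_eq_zero.1 h8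
    exact Units.ext h9.symm

theorem ram_twist (d : K) (P : Ideal (𝓞 (Kb K)))
    (hP : P.IsPrime) (h3 : ((3 : ℕ) : 𝓞 (Kb K)) ∉ P) :
    (∀ g ∈ inert P, chRep (qch d) g = 1) ↔ (∀ g ∈ inert P, chRep (qch (-3 * d)) g = 1) := by
  have key : ∀ g ∈ inert P, chRep (qch (-3 * d)) g = chRep (qch d) g := by
    intro g hg
    show DistribMulAction.toAddMonoidEnd ℤˣ (ZMod 3) (qch (-3 * d) g) =
      DistribMulAction.toAddMonoidEnd ℤˣ (ZMod 3) (qch d g)
    rw [qch_twist d hP h3 hg]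
  constructor
  · intro h g hg
    rw [key g hg]
    exact h g hg
  · intro h g hg
    rw [← key g hg]
    exact h g hg

end Pool.Agent.Helper98.IQ
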